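import Mathlib

set_option autoImplicit false

/-!
Sequences which change rarely and have mean zero are asymptotically orthogonal to all automatic
sequences, uniformly.
-/

namespace Pool.Agent.Helper62.AP

open Finset

/-- `a n` is the state of a machine with `K` states after it has read the digits of `n` in base `b`,
beginning with the leading digit. -/
def Aut (b K : ℕ) (a : ℕ → Fin K) : Prop :=
  ∃ δ : Fin K → ℕ → Fin K, ∀ n, 0 < n → ∀ r < b, a (b * n + r) = δ (a n) r

/-! ### sums -/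

theorem sum_mul_range (f : ℕ → ℝ) (V M : ℕ) :
    ∑ n ∈ range (V * M), f n = ∑ m ∈ range M, ∑ r ∈ range V, f (V * m + r) := by
  induction M with
  | zero => simp
  | succ M ih =>
    rw [Nat.mul_succ, Finset.sum_range_add, Finset.sum_range_succ, ih]

/-! ### reading several digits -/

/-- the state after reading `l` digits of `r` in base `b`, starting in the state `q` -/
def run {K : ℕ} (b : ℕ) (δ : Fin K → ℕ → Fin K) : ℕ → Fin K → ℕ → Fin K
  | 0, q, _ => q
  | l + 1, q, r => δ (run b δ l q (r / b)) (r % b)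

theorem run_spec {b K : ℕ} (hb : 2 ≤ b) {a : ℕ → Fin K} {δ : Fin K → ℕ → Fin K}
    (h : ∀ n, 0 < n → ∀ r < b, a (b * n + r) = δ (a n) r) (l : ℕ) :
    ∀ n, 0 < n → ∀ r < b ^ l, a (b ^ l * n + r) = run b δ l (a n) r := by
  induction l with
  | zero =>
    intro n hn r hr
    have : r = 0 := by simpa using hr
    simp [this, run]
  | succ l ih =>
    intro n hn r hr
    have hb0 : 0 < b := by omega
    have h1 : r / b < b ^ l := by
      rw [Nat.div_lt_iff_lt_mul hb0]
      rwa [pow_succ] at hr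
    have h2 : b ^ (l + 1) * n + r = b * (b ^ l * n + r / b) + r % b := by
      have := Nat.div_add_mod r b
      rw [pow_succ, mul_add]
      calc b ^ l * b * n + r = b ^ l * b * n + (b * (r / b) + r % b) := by rw [this]
        _ = b * (b ^ l * n) + b * (r / b) + r % b := by ring
    have h3 : 0 < b ^ l * n + r / b := Nat.add_pos_left (by positivity) _
    rw [h2, h _ h3 _ (Nat.mod_lt _ hb0), ih n hn _ h1]
    rfl

theorem run_add {b K : ℕ} (hb : 2 ≤ b) (δ : Fin K → ℕ → Fin K) (l l' : ℕ) (q : Fin K) (r : ℕ) :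
    run b δ (l + l') q r = run b δ l' (run b δ l q (r / b ^ l')) (r % b ^ l') := by
  induction l' generalizing r with
  | zero => simp [run]
  | succ l' ih =>
    have hb0 : 0 < b := by omega
    have e1 : run b δ (l + (l' + 1)) q r = δ (run b δ (l + l') q (r / b)) (r % b) := rfl
    have e2 : ∀ p x, run b δ (l' + 1) p x = δ (run b δ l' p (x / b)) (x % b) := fun _ _ => rfl
    rw [e1, ih, e2]
    have h1 : r / b / b ^ l' = r / b ^ (l' + 1) := by
      rw [Nat.div_div_eq_div_mul, pow_succ, mul_comm]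
    have h2 : r % b ^ (l' + 1) / b = r / b % b ^ l' := by
      rw [pow_succ, mul_comm, Nat.mod_mul_right_div_self]
    have h3 : r % b ^ (l' + 1) % b = r % b := by
      rw [pow_succ, mul_comm]
      exact Nat.mod_mul_right_mod r b (b ^ l')
    rw [h1, h2, h3]

/-- the states reached from `q` by reading `l` digits -/
def reach {K : ℕ} (b : ℕ) (δ : Fin K → ℕ → Fin K) (l : ℕ) (q : Fin K) : Finset (Fin K) :=
  (range (b ^ l)).image (run b δ l q)

theorem mem_reach_add {b K : ℕ} (hb : 2 ≤ b) (δ : Fin K → ℕ → Fin K) (l l' : ℕ) (q p : Fin K) :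
    p ∈ reach b δ (l + l') q ↔ ∃ o ∈ reach b δ l q, p ∈ reach b δ l' o := by
  have hb0 : 0 < b := by omega
  have hp : 0 < b ^ l' := by positivity
  constructor
  · intro h
    obtain ⟨r, hr, rfl⟩ := mem_image.1 h
    rw [mem_range] at hr
    refine ⟨run b δ l q (r / b ^ l'), mem_image.2 ⟨_, mem_range.2 ?_, rfl⟩,
      mem_image.2 ⟨r % b ^ l', mem_range.2 (Nat.mod_lt _ hp), (run_add hb δ l l' q r).symm⟩⟩
    rw [Nat.div_lt_iff_lt_mul hp]
    rwa [pow_add] at hr
  · rintro ⟨o, ho, h⟩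
    obtain ⟨x, hx, rfl⟩ := mem_image.1 ho
    obtain ⟨y, hy, rfl⟩ := mem_image.1 h
    rw [mem_range] at hx hy
    refine mem_image.2 ⟨b ^ l' * x + y, mem_range.2 ?_, ?_⟩
    · calc b ^ l' * x + y < b ^ l' * x + b ^ l' := by omega
        _ = b ^ l' * (x + 1) := by ring
        _ ≤ b ^ l' * b ^ l := Nat.mul_le_mul_left _ hx
        _ = b ^ (l + l') := by rw [pow_add]; ring
    · rw [run_add hb, Nat.mul_add_div hp, Nat.div_eq_of_lt hy, Nat.mul_add_mod, Nat.mod_eq_of_lt hy,
        add_zero]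

/-- some power of the relation that one digit leads from `q` to `p` is idempotent -/
theorem exists_idem {b K : ℕ} (hb : 2 ≤ b) (δ : Fin K → ℕ → Fin K) :
    ∃ e, 0 < e ∧ reach b δ (e + e) = reach b δ e := by
  have hni : ¬ Function.Injective (fun l : ℕ => (reach b δ l : Fin K → Finset (Fin K))) := by
    intro hinj
    exact not_injective_infinite_finite _ hinj
  rw [Function.Injective] at hni
  push Not at hni
  obtain ⟨i, j, hij, hne⟩ := hni
  have key : ∀ i j : ℕ, i < j → reach b δ i = reach b δ j →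
      ∃ e, 0 < e ∧ reach b δ (e + e) = reach b δ e := by
    intro i j hlt h
    have hstep : ∀ x y c : ℕ, reach b δ x = reach b δ y → reach b δ (x + c) = reach b δ (y + c) := by
      intro x y c hxy
      funext q
      ext p
      rw [mem_reach_add hb, mem_reach_add hb, hxy]
    obtain ⟨p, hp, rfl⟩ : ∃ p, 0 < p ∧ j = i + p := ⟨j - i, by omega, by omega⟩
    have h1 : ∀ n, i ≤ n → reach b δ (n + p) = reach b δ n := by
      intro n hn
      obtain ⟨c, rfl⟩ := Nat.exists_eq_add_of_le hn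
      have := hstep (i + p) i c h.symm
      rw [show i + c + p = i + p + c by ring]
      exact this
    have h2 : ∀ m n, i ≤ n → reach b δ (n + m * p) = reach b δ n := by
      intro m
      induction m with
      | zero => intro n _; simp
      | succ m ih =>
        intro n hn
        rw [show n + (m + 1) * p = (n + m * p) + p by ring, h1 _ (by nlinarith), ih n hn]
    refine ⟨(i + 1) * p, by positivity, h2 _ _ ?_⟩
    nlinarith
  rcases lt_or_gt_of_ne hne with h | h
  · exact key i j h hij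
  · exact key j i h hij.symm

/-! ### machines whose one-step relation is transitive -/

section Trans

variable {K : ℕ} {b : ℕ} (hb : 2 ≤ b) {δ : Fin K → ℕ → Fin K} {a : ℕ → Fin K}
  (h : ∀ n, 0 < n → ∀ r < b, a (b * n + r) = δ (a n) r)
  (htr : ∀ q, ∀ r < b, ∀ r' < b, ∃ r'' < b, δ (δ q r) r' = δ q r'')

/-- the successors of a state -/
def succs {K : ℕ} (b : ℕ) (δ : Fin K → ℕ → Fin K) (q : Fin K) : Finset (Fin K) :=
  (range b).image (δ q)

/-- all successors have the same successors -/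
def Good {K : ℕ} (b : ℕ) (δ : Fin K → ℕ → Fin K) (q : Fin K) : Prop :=
  ∀ p ∈ succs b δ q, succs b δ p = succs b δ q

include htr in
theorem succs_subset {q p : Fin K} (hp : p ∈ succs b δ q) : succs b δ p ⊆ succs b δ q := by
  obtain ⟨r, hr, rfl⟩ := mem_image.1 hp
  intro o ho
  obtain ⟨r', hr', rfl⟩ := mem_image.1 ho
  obtain ⟨r'', hr'', e⟩ := htr q r (mem_range.1 hr) r' (mem_range.1 hr')
  exact mem_image.2 ⟨r'', mem_range.2 hr'', e.symm⟩

theorem good_step {q p : Fin K} (hq : Good b δ q) (hp : p ∈ succs b δ q) : Good b δ p := by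
  intro o ho
  rw [hq p hp] at ho ⊢
  exact hq o ho

include hb htr in
theorem good_reach (q : Fin K) : ∃ r < b, Good b δ (δ q r) := by
  have hne : (succs b δ q).Nonempty := ⟨δ q 0, mem_image.2 ⟨0, mem_range.2 (by omega), rfl⟩⟩
  obtain ⟨p, hp, hmin⟩ := Finset.exists_min_image (succs b δ q) (fun p => (succs b δ p).card) hne
  have h1 : ∀ o ∈ succs b δ p, succs b δ o = succs b δ p := by
    intro o ho
    exact Finset.eq_of_subset_of_card_le (succs_subset htr ho)
      (hmin o (succs_subset htr hp ho))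
  have h2 : δ p 0 ∈ succs b δ p := mem_image.2 ⟨0, mem_range.2 (by omega), rfl⟩
  have h3 : Good b δ (δ p 0) := by
    intro o ho
    rw [h1 _ h2] at ho ⊢
    exact h1 o ho
  have h4 := succs_subset htr hp h2
  obtain ⟨r, hr, e⟩ := mem_image.1 h4
  exact ⟨r, mem_range.1 hr, e ▸ h3⟩

include h in
theorem mem_succs {n : ℕ} (hn : 0 < n) {r : ℕ} (hr : r < b) : a (b * n + r) ∈ succs b δ (a n) :=
  mem_image.2 ⟨r, mem_range.2 hr, (h n hn r hr).symm⟩

theorem digit_split (b i m x y : ℕ) : b ^ (i + 1) * m + (b ^ i * x + y) = b ^ i * (b * m + x) + y := by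
  rw [pow_succ]; ring

theorem exists_split {b i r : ℕ} (hb : 2 ≤ b) (hr : r < b ^ (i + 1)) :
    ∃ x < b, ∃ y < b ^ i, r = b ^ i * x + y := by
  have hp : 0 < b ^ i := by positivity
  refine ⟨r / b ^ i, ?_, r % b ^ i, Nat.mod_lt _ hp, (Nat.div_add_mod r (b ^ i)).symm⟩
  rw [Nat.div_lt_iff_lt_mul hp]
  rw [pow_succ] at hr
  linarith

include hb h in
/-- below a good number all numbers are good, and (from the second digit on) they are successors -/
theorem good_below (i : ℕ) : ∀ m, 0 < m → Good b δ (a m) → ∀ r < b ^ (i + 1),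
    a (b ^ (i + 1) * m + r) ∈ succs b δ (a m) := by
  induction i with
  | zero =>
    intro m hm _ r hr
    have := mem_succs h hm (r := r) (by simpa using hr)
    simpa using this
  | succ i ih =>
    intro m hm hg r hr
    obtain ⟨x, hx, y, hy, rfl⟩ := exists_split hb hr
    have e := digit_split b (i + 1) m x y
    rw [e]
    have h1 := mem_succs h hm hx
    have h2 := ih (b * m + x) (by positivity) (good_step hg h1) y hy
    rwa [hg _ h1] at h2

include hb h in
theorem good_below' (i : ℕ) (m : ℕ) (hm : 0 < m) (hg : Good b δ (a m)) (r : ℕ) (hr : r < b ^ i) :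
    Good b δ (a (b ^ i * m + r)) := by
  rcases i with _ | i
  · have : r = 0 := by simpa using hr
    simpa [this] using hg
  · exact good_step hg (good_below hb h i m hm hg r hr)

open Classical in
include hb h htr in
theorem bad_count (i : ℕ) : ∀ m, 0 < m →
    ((range (b ^ i)).filter fun r => ¬ Good b δ (a (b ^ i * m + r))).card ≤ (b - 1) ^ i := by
  induction i with
  | zero =>
    intro m _
    calc _ ≤ (range (b ^ 0)).card := Finset.card_filter_le _ _
      _ = _ := by simp
  | succ i ih =>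
    intro m hm
    have hsub : ((range (b ^ (i + 1))).filter fun r => ¬ Good b δ (a (b ^ (i + 1) * m + r))) ⊆
        (range b).biUnion fun x => (((range (b ^ i)).filter fun y =>
          ¬ Good b δ (a (b ^ i * (b * m + x) + y))).image fun y => b ^ i * x + y) := by
      intro r hr
      rw [mem_filter, mem_range] at hr
      obtain ⟨x, hx, y, hy, rfl⟩ := exists_split hb hr.1
      rw [mem_biUnion]
      refine ⟨x, mem_range.2 hx, mem_image.2 ⟨y, mem_filter.2 ⟨mem_range.2 hy, ?_⟩, rfl⟩⟩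
      rw [← digit_split]
      exact hr.2
    obtain ⟨x₀, hx₀, hg⟩ := good_reach hb htr (a m)
    rw [← h m hm x₀ hx₀] at hg
    refine (card_le_card hsub).trans (card_biUnion_le.trans ?_)
    have h1 : ∀ x ∈ range b, ((((range (b ^ i)).filter fun y =>
          ¬ Good b δ (a (b ^ i * (b * m + x) + y))).image fun y => b ^ i * x + y)).card ≤
          if x = x₀ then 0 else (b - 1) ^ i := by
      intro x _
      refine card_image_le.trans ?_
      split_ifs with e
      · subst e
        rw [Nat.le_zero, card_eq_zero, filter_eq_empty_iff]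
        intro y hy
        rw [not_not]
        exact good_below' hb h i _ (by positivity) hg y (mem_range.1 hy)
      · exact ih _ (by positivity)
    refine (sum_le_sum h1).trans ?_
    rw [Finset.sum_ite, Finset.sum_const_zero, zero_add, Finset.sum_const, smul_eq_mul]
    have h2 : ((range b).filter fun x => ¬ x = x₀).card = b - 1 := by
      have : ((range b).filter fun x => ¬ x = x₀) = (range b).erase x₀ := by
        ext x; simp [mem_erase, and_comm]
      rw [this, card_erase_of_mem (mem_range.2 hx₀), card_range]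
    rw [h2, pow_succ, mul_comm]

open Classical in
include hb h htr in
theorem bad_density (i M : ℕ) :
    (((range M).filter fun m => 0 < m ∧ ¬ Good b δ (a m)).card : ℝ) ≤
      (b : ℝ) ^ i + M * (((b : ℝ) - 1) / b) ^ i := by
  have hp : 0 < b ^ i := by positivity
  have hsub : ((range M).filter fun m => 0 < m ∧ ¬ Good b δ (a m)) ⊆
      range (b ^ i) ∪ (Ico 1 (M / b ^ i + 1)).biUnion fun t => (((range (b ^ i)).filter fun y =>
          ¬ Good b δ (a (b ^ i * t + y))).image fun y => b ^ i * t + y) := by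
    intro m hm
    rw [mem_filter, mem_range] at hm
    rw [mem_union]
    by_cases h1 : m < b ^ i
    · exact Or.inl (mem_range.2 h1)
    · right
      have e := Nat.div_add_mod m (b ^ i)
      have h2 : 1 ≤ m / b ^ i := (Nat.one_le_div_iff hp).2 (not_lt.1 h1)
      have h3 : m / b ^ i ≤ M / b ^ i := Nat.div_le_div_right hm.1.le
      rw [mem_biUnion]
      refine ⟨m / b ^ i, mem_Ico.2 ⟨h2, by omega⟩, mem_image.2 ⟨m % b ^ i, mem_filter.2
        ⟨mem_range.2 (Nat.mod_lt _ hp), ?_⟩, e⟩⟩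
      rw [e]
      exact hm.2.2
  have h1 : ((range M).filter fun m => 0 < m ∧ ¬ Good b δ (a m)).card ≤
      b ^ i + (M / b ^ i) * (b - 1) ^ i := by
    refine (card_le_card hsub).trans ((card_union_le _ _).trans ?_)
    rw [card_range]
    refine Nat.add_le_add_left (card_biUnion_le.trans ?_) _
    refine (sum_le_sum (g := fun _ => (b - 1) ^ i) ?_).trans ?_
    · intro t ht
      exact card_image_le.trans (bad_count hb h htr i t (by rw [mem_Ico] at ht; omega))
    · simp
  have h2 : ((M / b ^ i : ℕ) : ℝ) ≤ M / (b : ℝ) ^ i := by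
    have := @Nat.cast_div_le ℝ _ _ _ M (b ^ i)
    rwa [Nat.cast_pow] at this
  have h3 : ((b - 1 : ℕ) : ℝ) = (b : ℝ) - 1 := by
    rw [Nat.cast_sub (by omega)]; simp
  have hb1 : (1 : ℝ) ≤ b := by exact_mod_cast (by omega : 1 ≤ b)
  calc (((range M).filter fun m => 0 < m ∧ ¬ Good b δ (a m)).card : ℝ)
      ≤ ((b ^ i + (M / b ^ i) * (b - 1) ^ i : ℕ) : ℝ) := by exact_mod_cast h1
    _ = (b : ℝ) ^ i + ((M / b ^ i : ℕ) : ℝ) * ((b : ℝ) - 1) ^ i := by
        rw [Nat.cast_add, Nat.cast_mul, Nat.cast_pow, Nat.cast_pow, h3]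
    _ ≤ (b : ℝ) ^ i + (M / (b : ℝ) ^ i) * ((b : ℝ) - 1) ^ i := by
        have : 0 ≤ ((b : ℝ) - 1) ^ i := pow_nonneg (by linarith) _
        gcongr
    _ = _ := by
        rw [div_pow]; ring

/-! ### block sums -/

/-- the sum of `g (a n)` over the block of length `b ^ l` with the number `t` -/
noncomputable def B {K : ℕ} (b : ℕ) (a : ℕ → Fin K) (g : Fin K → ℝ) (l t : ℕ) : ℝ :=
  ∑ r ∈ range (b ^ l), g (a (b ^ l * t + r))

theorem B_succ (g : Fin K → ℝ) (l t : ℕ) :
    B b a g (l + 1) t = ∑ x : Fin b, B b a g l (b * t + x) := by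
  unfold B
  rw [pow_succ, sum_mul_range, Finset.sum_range]
  refine Finset.sum_congr rfl fun x _ => Finset.sum_congr rfl fun y _ => ?_
  rw [← digit_split, pow_succ]

include hb h in
theorem B_state (g : Fin K → ℝ) (l : ℕ) {t t' : ℕ} (ht : 0 < t) (ht' : 0 < t') (e : a t = a t') :
    B b a g l t = B b a g l t' := by
  unfold B
  refine Finset.sum_congr rfl fun r hr => ?_
  rw [run_spec hb h l t ht r (mem_range.1 hr), run_spec hb h l t' ht' r (mem_range.1 hr), e]

include hb h in
theorem B_osc {g : Fin K → ℝ} (hg : ∀ q, |g q| ≤ 1) (l : ℕ) : ∀ t t', 0 < t → 0 < t' →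
    Good b δ (a t) → Good b δ (a t') → succs b δ (a t) = succs b δ (a t') →
    |B b a g l t - B b a g l t'| ≤ 2 * ((b : ℝ) - 1) ^ l := by
  induction l with
  | zero =>
    intro t t' _ _ _ _ _
    have : |g (a t) - g (a t')| ≤ 2 := by
      have h1 := abs_le.1 (hg (a t))
      have h2 := abs_le.1 (hg (a t'))
      rw [abs_le]
      constructor <;> linarith
    simpa [B] using this
  | succ l ih =>
    intro t t' ht ht' hgt hgt' hs
    have hb0 : 0 < b := by omega
    rw [B_succ, B_succ]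
    obtain ⟨x₁, hx₁, e⟩ : ∃ x₁ < b, a (b * t' + x₁) = a (b * t + 0) := by
      have h1 : a (b * t + 0) ∈ succs b δ (a t') := hs ▸ mem_succs h ht hb0
      obtain ⟨r, hr, e⟩ := mem_image.1 h1
      exact ⟨r, mem_range.1 hr, (h t' ht' r (mem_range.1 hr)).trans e⟩
    set X₀ : Fin b := ⟨0, hb0⟩
    set X₁ : Fin b := ⟨x₁, hx₁⟩
    have e2 : ∑ x : Fin b, B b a g l (b * t' + x) =
        ∑ x : Fin b, B b a g l (b * t' + (Equiv.swap X₀ X₁ x : Fin b)) :=
      (Equiv.sum_comp (Equiv.swap X₀ X₁) fun x : Fin b => B b a g l (b * t' + x)).symm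
    rw [e2, ← Finset.sum_sub_distrib]
    refine (Finset.abs_sum_le_sum_abs _ _).trans ?_
    have hterm : ∀ x ∈ (univ : Finset (Fin b)),
        |B b a g l (b * t + x) - B b a g l (b * t' + (Equiv.swap X₀ X₁ x : Fin b))| ≤
          if x = X₀ then 0 else 2 * ((b : ℝ) - 1) ^ l := by
      intro x _
      split_ifs with hx
      · rw [hx, Equiv.swap_apply_left]
        have : B b a g l (b * t + X₀) = B b a g l (b * t' + X₁) :=
          B_state hb h g l (by positivity) (by positivity) e.symm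
        rw [this, sub_self, abs_zero]
      · have m1 := mem_succs h ht x.2
        have m2 := mem_succs h ht' (Equiv.swap X₀ X₁ x).2
        refine ih _ _ (by positivity) (by positivity) (good_step hgt m1) (good_step hgt' m2) ?_
        rw [hgt _ m1, hgt' _ m2, hs]
    refine (Finset.sum_le_sum hterm).trans ?_
    rw [Finset.sum_ite, Finset.sum_const_zero, zero_add, Finset.sum_const, nsmul_eq_mul]
    have h2 : (univ.filter fun x : Fin b => ¬ x = X₀).card = b - 1 := by
      have : (univ.filter fun x : Fin b => ¬ x = X₀) = univ.erase X₀ := by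
        ext x; simp
      rw [this, card_erase_of_mem (mem_univ _), card_univ, Fintype.card_fin]
    have h3 : ((b - 1 : ℕ) : ℝ) = (b : ℝ) - 1 := by
      rw [Nat.cast_sub (by omega)]; simp
    rw [h2, h3, pow_succ]
    apply le_of_eq
    ring

theorem abs_B_le {g : Fin K → ℝ} (hg : ∀ q, |g q| ≤ 1) (l t : ℕ) :
    |B b a g l t| ≤ (b : ℝ) ^ l := by
  refine (Finset.abs_sum_le_sum_abs _ _).trans ((Finset.sum_le_sum fun r _ => hg _).trans ?_)
  simp

open Classical in
/-- `1` if `u` changes between `n` and `n + 1`, and `0` otherwise -/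
noncomputable def jump (u : ℕ → ℝ) (n : ℕ) : ℝ := if u n = u (n + 1) then 0 else 1

theorem jump_nonneg (u : ℕ → ℝ) (n : ℕ) : 0 ≤ jump u n := by
  unfold jump; split_ifs <;> norm_num

theorem block (hb : 2 ≤ b) {u : ℕ → ℝ} (hu : ∀ n, |u n| ≤ 1) {g : Fin K → ℝ} (hg : ∀ q, |g q| ≤ 1)
    (l T : ℕ) :
    |∑ y ∈ range (b ^ l), u (b ^ l * T + y) * g (a (b ^ l * T + y)) -
      B b a g l T / (b : ℝ) ^ l * ∑ y ∈ range (b ^ l), u (b ^ l * T + y)| ≤
      2 * (b : ℝ) ^ l * ∑ y ∈ range (b ^ l), jump u (b ^ l * T + y) := by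
  have hL : (0 : ℝ) < (b : ℝ) ^ l := by positivity
  by_cases hc : ∀ y < b ^ l, u (b ^ l * T + y) = u (b ^ l * T + y + 1)
  · have hconst : ∀ y, y ≤ b ^ l → u (b ^ l * T + y) = u (b ^ l * T) := by
      intro y
      induction y with
      | zero => intro _; rfl
      | succ y ih =>
        intro hy
        rw [← ih (by omega), hc y (by omega)]
        rfl
    have e1 : ∑ y ∈ range (b ^ l), u (b ^ l * T + y) * g (a (b ^ l * T + y)) =
        u (b ^ l * T) * B b a g l T := by
      rw [B, Finset.mul_sum]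
      exact Finset.sum_congr rfl fun y hy => by rw [hconst y (mem_range.1 hy).le]
    have e2 : ∑ y ∈ range (b ^ l), u (b ^ l * T + y) = (b : ℝ) ^ l * u (b ^ l * T) := by
      rw [Finset.sum_congr rfl fun y hy => hconst y (mem_range.1 hy).le]
      simp
    rw [e1, e2]
    have e3 : u (b ^ l * T) * B b a g l T -
        B b a g l T / (b : ℝ) ^ l * ((b : ℝ) ^ l * u (b ^ l * T)) = 0 := by
      field_simp
      ring
    rw [e3, abs_zero]
    have : 0 ≤ ∑ y ∈ range (b ^ l), jump u (b ^ l * T + y) :=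
      Finset.sum_nonneg fun y _ => jump_nonneg u _
    positivity
  · push Not at hc
    obtain ⟨y₀, hy₀, hne⟩ := hc
    have h1 : 1 ≤ ∑ y ∈ range (b ^ l), jump u (b ^ l * T + y) := by
      have : jump u (b ^ l * T + y₀) ≤ ∑ y ∈ range (b ^ l), jump u (b ^ l * T + y) :=
        Finset.single_le_sum (f := fun y => jump u (b ^ l * T + y))
          (fun y _ => jump_nonneg u _) (mem_range.2 hy₀)
      have e : jump u (b ^ l * T + y₀) = 1 := by unfold jump; rw [if_neg hne]
      rwa [e] at this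
    have h2 : |∑ y ∈ range (b ^ l), u (b ^ l * T + y) * g (a (b ^ l * T + y))| ≤ (b : ℝ) ^ l := by
      refine (Finset.abs_sum_le_sum_abs _ _).trans ?_
      have : ∀ y ∈ range (b ^ l), |u (b ^ l * T + y) * g (a (b ^ l * T + y))| ≤ (1 : ℝ) := by
        intro y _
        rw [abs_mul]
        calc _ ≤ (1 : ℝ) * 1 := mul_le_mul (hu _) (hg _) (abs_nonneg _) zero_le_one
          _ = 1 := one_mul 1
      refine (Finset.sum_le_sum this).trans ?_
      simp
    have h3 : |∑ y ∈ range (b ^ l), u (b ^ l * T + y)| ≤ (b : ℝ) ^ l := by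
      refine (Finset.abs_sum_le_sum_abs _ _).trans ((Finset.sum_le_sum fun y _ => hu _).trans ?_)
      simp
    have h4 : |B b a g l T / (b : ℝ) ^ l| ≤ 1 := by
      rw [abs_div, abs_of_pos hL, div_le_one hL]
      exact abs_B_le hg l T
    have h5 : |B b a g l T / (b : ℝ) ^ l * ∑ y ∈ range (b ^ l), u (b ^ l * T + y)| ≤ (b : ℝ) ^ l := by
      rw [abs_mul]
      calc _ ≤ 1 * (b : ℝ) ^ l := mul_le_mul h4 h3 (abs_nonneg _) zero_le_one
        _ = _ := one_mul _
    calc _ ≤ |∑ y ∈ range (b ^ l), u (b ^ l * T + y) * g (a (b ^ l * T + y))| +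
          |B b a g l T / (b : ℝ) ^ l * ∑ y ∈ range (b ^ l), u (b ^ l * T + y)| := abs_sub _ _
      _ ≤ 2 * (b : ℝ) ^ l * 1 := by linarith
      _ ≤ _ := by gcongr

include hb h in
theorem inner {u : ℕ → ℝ} (hu : ∀ n, |u n| ≤ 1) {g : Fin K → ℝ} (hg : ∀ q, |g q| ≤ 1)
    (l j : ℕ) {m : ℕ} (hm : 0 < m) (hgm : Good b δ (a m)) :
    |∑ r ∈ range (b ^ l * b ^ (j + 1)),
        u (b ^ l * b ^ (j + 1) * m + r) * g (a (b ^ l * b ^ (j + 1) * m + r))| ≤
      |∑ r ∈ range (b ^ l * b ^ (j + 1)), u (b ^ l * b ^ (j + 1) * m + r)| +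
      2 * (b : ℝ) ^ l * ∑ r ∈ range (b ^ l * b ^ (j + 1)), jump u (b ^ l * b ^ (j + 1) * m + r) +
      2 * (((b : ℝ) - 1) / b) ^ l * ((b ^ l * b ^ (j + 1) : ℕ) : ℝ) := by
  have hL : (0 : ℝ) < (b : ℝ) ^ l := by positivity
  have e : ∀ t y, b ^ l * b ^ (j + 1) * m + (b ^ l * t + y) = b ^ l * (b ^ (j + 1) * m + t) + y := by
    intro t y; ring
  rw [sum_mul_range, sum_mul_range, sum_mul_range]
  simp only [e]
  set T : ℕ → ℕ := fun t => b ^ (j + 1) * m + t with hT
  set ρ : ℝ := B b a g l (b ^ (j + 1) * m + 0) / (b : ℝ) ^ l with hρ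
  have hρ1 : |ρ| ≤ 1 := by
    rw [hρ, abs_div, abs_of_pos hL, div_le_one hL]
    exact abs_B_le hg l _
  have hpos : ∀ t, 0 < b ^ (j + 1) * m + t := fun t => Nat.add_pos_left (by positivity) _
  have hterm : ∀ t ∈ range (b ^ (j + 1)),
      |∑ y ∈ range (b ^ l), u (b ^ l * (b ^ (j + 1) * m + t) + y) *
          g (a (b ^ l * (b ^ (j + 1) * m + t) + y)) -
        ρ * ∑ y ∈ range (b ^ l), u (b ^ l * (b ^ (j + 1) * m + t) + y)| ≤
      2 * (b : ℝ) ^ l * ∑ y ∈ range (b ^ l), jump u (b ^ l * (b ^ (j + 1) * m + t) + y) +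
        2 * (((b : ℝ) - 1) / b) ^ l * (b : ℝ) ^ l := by
    intro t ht
    have h1 := block (a := a) hb hu hg l (b ^ (j + 1) * m + t)
    have hs1 := good_below hb h j m hm hgm t (mem_range.1 ht)
    have hs0 := good_below hb h j m hm hgm 0 (by positivity)
    have h2 := B_osc hb h hg l (b ^ (j + 1) * m + t) (b ^ (j + 1) * m + 0) (hpos t) (hpos 0)
      (good_step hgm hs1) (good_step hgm hs0) (by rw [hgm _ hs1, hgm _ hs0])
    have h3 : |∑ y ∈ range (b ^ l), u (b ^ l * (b ^ (j + 1) * m + t) + y)| ≤ (b : ℝ) ^ l := by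
      refine (Finset.abs_sum_le_sum_abs _ _).trans ((Finset.sum_le_sum fun y _ => hu _).trans ?_)
      simp
    have h4 : |(B b a g l (b ^ (j + 1) * m + t) / (b : ℝ) ^ l - ρ) *
        ∑ y ∈ range (b ^ l), u (b ^ l * (b ^ (j + 1) * m + t) + y)| ≤
        2 * (((b : ℝ) - 1) / b) ^ l * (b : ℝ) ^ l := by
      rw [abs_mul, hρ, ← sub_div, abs_div, abs_of_pos hL]
      refine mul_le_mul ?_ h3 (abs_nonneg _) ?_
      · rw [div_pow, ← mul_div_assoc]
        gcongr
      · have hb1 : (1 : ℝ) ≤ b := by exact_mod_cast (by omega : 1 ≤ b)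
        have : 0 ≤ ((b : ℝ) - 1) / b := div_nonneg (by linarith) (by linarith)
        positivity
    have e5 : ∑ y ∈ range (b ^ l), u (b ^ l * (b ^ (j + 1) * m + t) + y) *
          g (a (b ^ l * (b ^ (j + 1) * m + t) + y)) -
        ρ * ∑ y ∈ range (b ^ l), u (b ^ l * (b ^ (j + 1) * m + t) + y) =
        (∑ y ∈ range (b ^ l), u (b ^ l * (b ^ (j + 1) * m + t) + y) *
          g (a (b ^ l * (b ^ (j + 1) * m + t) + y)) -
          B b a g l (b ^ (j + 1) * m + t) / (b : ℝ) ^ l *
            ∑ y ∈ range (b ^ l), u (b ^ l * (b ^ (j + 1) * m + t) + y)) +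
        (B b a g l (b ^ (j + 1) * m + t) / (b : ℝ) ^ l - ρ) *
          ∑ y ∈ range (b ^ l), u (b ^ l * (b ^ (j + 1) * m + t) + y) := by ring
    rw [e5]
    exact (abs_add_le _ _).trans (add_le_add h1 h4)
  have e6 : ∑ t ∈ range (b ^ (j + 1)), ∑ y ∈ range (b ^ l),
        u (b ^ l * (b ^ (j + 1) * m + t) + y) * g (a (b ^ l * (b ^ (j + 1) * m + t) + y)) =
      ∑ t ∈ range (b ^ (j + 1)), (∑ y ∈ range (b ^ l), u (b ^ l * (b ^ (j + 1) * m + t) + y) *
          g (a (b ^ l * (b ^ (j + 1) * m + t) + y)) -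
        ρ * ∑ y ∈ range (b ^ l), u (b ^ l * (b ^ (j + 1) * m + t) + y)) +
      ρ * ∑ t ∈ range (b ^ (j + 1)), ∑ y ∈ range (b ^ l), u (b ^ l * (b ^ (j + 1) * m + t) + y) := by
    rw [Finset.sum_sub_distrib, Finset.mul_sum]
    ring
  rw [e6]
  have h7 : |ρ * ∑ t ∈ range (b ^ (j + 1)), ∑ y ∈ range (b ^ l),
      u (b ^ l * (b ^ (j + 1) * m + t) + y)| ≤
      |∑ t ∈ range (b ^ (j + 1)), ∑ y ∈ range (b ^ l), u (b ^ l * (b ^ (j + 1) * m + t) + y)| := by
    rw [abs_mul]
    calc _ ≤ 1 * _ := mul_le_mul_of_nonneg_right hρ1 (abs_nonneg _)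
      _ = _ := one_mul _
  have h8 := (Finset.abs_sum_le_sum_abs _ _).trans (Finset.sum_le_sum hterm)
  rw [Finset.sum_add_distrib, ← Finset.mul_sum, Finset.sum_const, card_range, nsmul_eq_mul] at h8
  have e9 : ((b ^ (j + 1) : ℕ) : ℝ) * (2 * (((b : ℝ) - 1) / b) ^ l * (b : ℝ) ^ l) =
      2 * (((b : ℝ) - 1) / b) ^ l * ((b ^ l * b ^ (j + 1) : ℕ) : ℝ) := by
    push_cast; ring
  rw [e9] at h8
  refine (abs_add_le _ _).trans ?_
  linarith

include hb htr in
/-- the estimate for one scale -/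
theorem assemble (h : ∀ n, 0 < n → ∀ r < b, a (b * n + r) = δ (a n) r)
    {u : ℕ → ℝ} (hu : ∀ n, |u n| ≤ 1) {g : Fin K → ℝ} (hg : ∀ q, |g q| ≤ 1)
    (l j i₀ N M : ℕ) (η κ : ℝ) (hη : 0 ≤ η)
    (hM : M = N / (b ^ l * b ^ (j + 1))) (hM1 : 0 < M)
    (hD : ∀ m, 0 < m → m ≤ M → |∑ n ∈ range (b ^ l * b ^ (j + 1) * m), u n| ≤
      η * (b ^ l * b ^ (j + 1) * m : ℕ))
    (hJ : ∑ n ∈ range N, jump u n ≤ κ * N) :
    |∑ n ∈ range N, u n * g (a n)| ≤
      2 * (b ^ l * b ^ (j + 1) : ℕ) +
      (b ^ l * b ^ (j + 1) : ℕ) * ((b : ℝ) ^ i₀ + M * (((b : ℝ) - 1) / b) ^ i₀) +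
      2 * η * M * N + 2 * (b : ℝ) ^ l * (κ * N) + 2 * (((b : ℝ) - 1) / b) ^ l * N := by
  classical
  set V : ℕ := b ^ l * b ^ (j + 1) with hV
  have hVpos : 0 < V := by positivity
  have hVM : V * M ≤ N := by rw [hM]; exact Nat.mul_div_le N V
  have hb1 : (1 : ℝ) ≤ b := by exact_mod_cast (by omega : 1 ≤ b)
  have hτ : 0 ≤ ((b : ℝ) - 1) / b := div_nonneg (by linarith) (by linarith)
  obtain ⟨ρ, hρ⟩ : ∃ ρ, N = V * M + ρ := ⟨N - V * M, by omega⟩
  have hρV : ρ < V := by
    have h1 : N < V * (N / V + 1) := Nat.lt_mul_div_succ N hVpos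
    rw [← hM, Nat.mul_succ] at h1
    omega
  have hone : ∀ n, |u n * g (a n)| ≤ 1 := by
    intro n
    rw [abs_mul]
    calc _ ≤ (1 : ℝ) * 1 := mul_le_mul (hu _) (hg _) (abs_nonneg _) zero_le_one
      _ = 1 := one_mul 1
  have hfull : ∀ (k s : ℕ), |∑ r ∈ range k, u (s + r) * g (a (s + r))| ≤ k := by
    intro k s
    refine (Finset.abs_sum_le_sum_abs _ _).trans ((Finset.sum_le_sum fun r _ => hone _).trans ?_)
    simp
  have hsplit : ∑ n ∈ range N, u n * g (a n) =
      ∑ m ∈ range M, ∑ r ∈ range V, u (V * m + r) * g (a (V * m + r)) +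
      ∑ r ∈ range ρ, u (V * M + r) * g (a (V * M + r)) := by
    rw [hρ, Finset.sum_range_add, sum_mul_range (fun n => u n * g (a n))]
  -- the main term for each block
  have hblk : ∀ m ∈ range M, |∑ r ∈ range V, u (V * m + r) * g (a (V * m + r))| ≤
      (if m = 0 then (V : ℝ) else 0) + (V : ℝ) * (if 0 < m ∧ ¬ Good b δ (a m) then 1 else 0) +
      2 * η * (V * M) + 2 * (b : ℝ) ^ l * ∑ r ∈ range V, jump u (V * m + r) +
      2 * (((b : ℝ) - 1) / b) ^ l * V := by
    intro m hm
    rw [mem_range] at hm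
    have hj0 : 0 ≤ ∑ r ∈ range V, jump u (V * m + r) := Finset.sum_nonneg fun _ _ => jump_nonneg _ _
    have hη' : 0 ≤ 2 * η * ((V : ℝ) * M) := by positivity
    have hτ' : 0 ≤ 2 * (((b : ℝ) - 1) / b) ^ l * (V : ℝ) := by positivity
    have hj' : 0 ≤ 2 * (b : ℝ) ^ l * ∑ r ∈ range V, jump u (V * m + r) := by positivity
    have hV0 : (0 : ℝ) ≤ V := by positivity
    by_cases h0 : m = 0
    · have := hfull V (V * m)
      simp only [h0, if_true, lt_irrefl, false_and, if_false, mul_zero, add_zero] at this hj' ⊢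
      linarith
    · have hm0 : 0 < m := Nat.pos_of_ne_zero h0
      by_cases hgm : Good b δ (a m)
      · have h1 := inner hb h hu hg l j hm0 hgm
        rw [← hV] at h1
        have h2 : |∑ r ∈ range V, u (V * m + r)| ≤ 2 * η * (V * M) := by
          have e : ∑ r ∈ range V, u (V * m + r) =
              ∑ n ∈ range (V * (m + 1)), u n - ∑ n ∈ range (V * m), u n := by
            rw [Nat.mul_succ, Finset.sum_range_add]; ring
          rw [e]
          have d1 := hD (m + 1) (by omega) (by omega)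
          have d2 := hD m hm0 hm.le
          have d3 : ((V * (m + 1) : ℕ) : ℝ) ≤ V * M := by
            exact_mod_cast Nat.mul_le_mul_left V (by omega : m + 1 ≤ M)
          have d4 : ((V * m : ℕ) : ℝ) ≤ V * M := by
            exact_mod_cast Nat.mul_le_mul_left V hm.le
          have d5 := mul_le_mul_of_nonneg_left d3 hη
          have d6 := mul_le_mul_of_nonneg_left d4 hη
          calc _ ≤ |∑ n ∈ range (V * (m + 1)), u n| + |∑ n ∈ range (V * m), u n| := abs_sub _ _
            _ ≤ _ := by linarith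
        simp only [h0, if_false, hgm, not_true, and_false, mul_zero, add_zero, zero_add]
        linarith
      · have := hfull V (V * m)
        simp only [h0, if_false, hgm, not_false_iff, and_true, hm0, if_true, mul_one, zero_add]
        linarith
  have hsum := (Finset.abs_sum_le_sum_abs _ _).trans (Finset.sum_le_sum hblk)
  have hzero : ∑ m ∈ range M, (if m = 0 then (V : ℝ) else 0) = V := by
    rw [Finset.sum_ite_eq' (range M) 0 (fun _ => (V : ℝ)), if_pos (mem_range.2 hM1)]
  have hbad : ∑ m ∈ range M, (V : ℝ) * (if 0 < m ∧ ¬ Good b δ (a m) then 1 else 0) ≤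
      V * ((b : ℝ) ^ i₀ + M * (((b : ℝ) - 1) / b) ^ i₀) := by
    rw [← Finset.mul_sum]
    refine mul_le_mul_of_nonneg_left ?_ (by positivity)
    rw [Finset.sum_boole]
    exact bad_density hb h htr i₀ M
  have hjump : ∑ m ∈ range M, 2 * (b : ℝ) ^ l * ∑ r ∈ range V, jump u (V * m + r) ≤
      2 * (b : ℝ) ^ l * (κ * N) := by
    rw [← Finset.mul_sum, ← sum_mul_range]
    refine mul_le_mul_of_nonneg_left (le_trans ?_ hJ) (by positivity)
    exact Finset.sum_le_sum_of_subset_of_nonneg (Finset.range_mono hVM) fun _ _ _ => jump_nonneg _ _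
  have hVMr : (V : ℝ) * M ≤ N := by exact_mod_cast hVM
  have hM0 : (0 : ℝ) ≤ M := by positivity
  have hrest := hfull ρ (V * M)
  have hρr : (ρ : ℝ) ≤ V := by exact_mod_cast hρV.le
  simp only [Finset.sum_add_distrib, Finset.sum_const, card_range, nsmul_eq_mul] at hsum
  rw [hzero] at hsum
  have e1 : (M : ℝ) * (2 * η * (V * M)) ≤ 2 * η * M * N := by
    have : 2 * η * M * (V * M) ≤ 2 * η * M * N := mul_le_mul_of_nonneg_left hVMr (by positivity)
    linarith
  have e2 : (M : ℝ) * (2 * (((b : ℝ) - 1) / b) ^ l * V) ≤ 2 * (((b : ℝ) - 1) / b) ^ l * N := by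
    have : 2 * (((b : ℝ) - 1) / b) ^ l * (V * M) ≤ 2 * (((b : ℝ) - 1) / b) ^ l * N :=
      mul_le_mul_of_nonneg_left hVMr (by positivity)
    linarith
  rw [hsplit]
  refine (abs_add_le _ _).trans ?_
  linarith

end Trans

end Pool.Agent.Helper62.AP
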