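import Pool.Agent.Helper62.AP.Quant

set_option autoImplicit false

namespace Pool.Agent.Helper62.AP

open Finset Filter

/-- one machine -/
theorem core_machine {K : ℕ} (b : ℕ) (hb : 2 ≤ b) (δ : Fin K → ℕ → Fin K)
    (𝓤 : Set (ℕ → ℝ)) (h1 : ∀ u ∈ 𝓤, ∀ n, |u n| ≤ 1) (d C : ℝ) (hd : 0 < d) (hd1 : d ≤ 1)
    (hC : 0 < C) (N₁ : ℕ)
    (hD : ∀ u ∈ 𝓤, ∀ N : ℕ, N₁ ≤ N → |∑ n ∈ range N, u n| ≤ C * N / (Real.log N) ^ d)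
    (hJ : ∀ u ∈ 𝓤, ∀ N : ℕ, N₁ ≤ N → ∑ n ∈ range N, jump u n ≤ C * N / (Real.log N) ^ d) :
    ∃ c : ℝ, 0 < c ∧ ∀ᶠ N : ℕ in atTop, ∀ u ∈ 𝓤, ∀ a : ℕ → Fin K,
      (∀ n, 0 < n → ∀ r < b, a (b * n + r) = δ (a n) r) → ∀ g : Fin K → ℝ, (∀ q, |g q| ≤ 1) →
      |∑ n ∈ range N, u n * g (a n)| ≤ N / (Real.log N) ^ c := by
  obtain ⟨e, he, hidem⟩ := exists_idem hb δ
  have hbe : 2 ≤ b ^ e := by
    calc 2 ≤ b := hb
      _ = b ^ 1 := (pow_one b).symm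
      _ ≤ b ^ e := Nat.pow_le_pow_right (by omega) he
  have htr : ∀ q, ∀ r < b ^ e, ∀ r' < b ^ e, ∃ r'' < b ^ e,
      run b δ e (run b δ e q r) r' = run b δ e q r'' := by
    intro q r hr r' hr'
    have h2 : run b δ e (run b δ e q r) r' ∈ reach b δ (e + e) q :=
      (mem_reach_add hb δ e e q _).2 ⟨run b δ e q r, mem_image.2 ⟨r, mem_range.2 hr, rfl⟩,
        mem_image.2 ⟨r', mem_range.2 hr', rfl⟩⟩
    rw [hidem] at h2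
    obtain ⟨r'', hr'', e2⟩ := mem_image.1 h2
    exact ⟨r'', mem_range.1 hr'', e2.symm⟩
  obtain ⟨c, hc, h2⟩ := core_trans (b ^ e) hbe (run b δ e) htr 𝓤 h1 d C hd hd1 hC N₁ hD hJ
  refine ⟨c, hc, h2.mono fun N hN u hu a ha g hg => hN u hu a ?_ g hg⟩
  exact fun n hn r hr => run_spec hb ha e n hn r hr

/-- **All machines with `K` states at once.** -/
theorem core (K b : ℕ) (hb : 2 ≤ b)
    (𝓤 : Set (ℕ → ℝ)) (h1 : ∀ u ∈ 𝓤, ∀ n, |u n| ≤ 1) (d C : ℝ) (hd : 0 < d) (hd1 : d ≤ 1)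
    (hC : 0 < C) (N₁ : ℕ)
    (hD : ∀ u ∈ 𝓤, ∀ N : ℕ, N₁ ≤ N → |∑ n ∈ range N, u n| ≤ C * N / (Real.log N) ^ d)
    (hJ : ∀ u ∈ 𝓤, ∀ N : ℕ, N₁ ≤ N → ∑ n ∈ range N, jump u n ≤ C * N / (Real.log N) ^ d) :
    ∃ c : ℝ, 0 < c ∧ ∀ᶠ N : ℕ in atTop, ∀ u ∈ 𝓤, ∀ a : ℕ → Fin K, Aut b K a →
      ∀ g : Fin K → ℝ, (∀ q, |g q| ≤ 1) →
      |∑ n ∈ range N, u n * g (a n)| ≤ N / (Real.log N) ^ c := by
  classical
  have hne : Nonempty (Fin K → Fin b → Fin K) := ⟨fun q _ => q⟩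
  have hall : ∀ δ₀ : Fin K → Fin b → Fin K, ∃ c : ℝ, 0 < c ∧ ∀ᶠ N : ℕ in atTop, ∀ u ∈ 𝓤,
      ∀ a : ℕ → Fin K,
      (∀ n, 0 < n → ∀ r < b, a (b * n + r) = (fun q r => if h : r < b then δ₀ q ⟨r, h⟩ else q) (a n) r) →
      ∀ g : Fin K → ℝ, (∀ q, |g q| ≤ 1) →
      |∑ n ∈ range N, u n * g (a n)| ≤ N / (Real.log N) ^ c := fun δ₀ =>
    core_machine b hb (fun q r => if h : r < b then δ₀ q ⟨r, h⟩ else q) 𝓤 h1 d C hd hd1 hC N₁ hD hJ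
  choose c hc hev using hall
  obtain ⟨δm, hδm⟩ := Finite.exists_min c
  refine ⟨c δm, hc δm, ?_⟩
  have hlog : Tendsto (fun N : ℕ => Real.log N) atTop atTop :=
    Real.tendsto_log_atTop.comp tendsto_natCast_atTop_atTop
  filter_upwards [Filter.eventually_all.2 hev, hlog.eventually_ge_atTop 1] with N hN hN1
  rintro u hu a ⟨δ, hδ⟩ g hg
  have h2 := hN (fun q r => δ q r) u hu a (fun n hn r hr => by
    simp only [hr, dif_pos]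
    exact hδ n hn r hr) g hg
  refine h2.trans ?_
  have h3 : Real.log N ^ c δm ≤ Real.log N ^ c (fun q r => δ q r) :=
    Real.rpow_le_rpow_of_exponent_le hN1 (hδm _)
  have h4 : 0 < Real.log N ^ c δm := Real.rpow_pos_of_pos (by linarith) _
  gcongr

end Pool.Agent.Helper62.AP
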