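import Pool.Agent.Helper62.AP.Fin
import Pool.Graph.R_seed8.V11201.SH.G
import Pool.Graph.R_seed8.TH237.RT.Int
import Pool.Graph.R_pool_sql_team_seeded_2aa45f1a.Q163.WD.Base

set_option autoImplicit false

/-! The completely invariant sets of integers of the `3x+1` function `T` change rarely. -/

namespace Pool.Agent.Helper62.AP

open Finset Filter Topology
open Pool.Agent.H499R2.CO (Tz)
open Pool.Agent.H723R2.LSW (T)

open Classical in
/-- the indicator function of the set of the `n` with `s n` in `S` -/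
noncomputable def ind (s : ℤ) (S : Set ℤ) (n : ℕ) : ℝ := if s * (n : ℤ) ∈ S then 1 else 0

theorem ind_nonneg (s : ℤ) (S : Set ℤ) (n : ℕ) : 0 ≤ ind s S n := by
  unfold ind; split_ifs <;> norm_num

theorem ind_le_one (s : ℤ) (S : Set ℤ) (n : ℕ) : ind s S n ≤ 1 := by
  unfold ind; split_ifs <;> norm_num

theorem T_eq (x : ℤ) : T x = Tz 1 x := rfl

theorem same_of_merge {S : Set ℤ} (hS : ∀ x : ℤ, x ∈ S ↔ T x ∈ S) {N : ℕ} {x y : ℤ}
    (h : Pool.Agent.V11201.SH.Merge 1 N x y) : x ∈ S ↔ y ∈ S := by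
  obtain ⟨t, _, ht⟩ := h
  have key : ∀ (t : ℕ) (x : ℤ), x ∈ S ↔ (Tz 1)^[t] x ∈ S := by
    intro t
    induction t with
    | zero => intro x; rfl
    | succ t ih =>
      intro x
      rw [Function.iterate_succ_apply, ← ih, ← T_eq]
      exact hS x
  rw [key t x, ht, ← key t y]

/-- rare changes -/
theorem jumps : ∃ C : ℝ, 0 < C ∧ ∀ s : ℤ, (s = 1 ∨ s = -1) → ∀ S : Set ℤ,
    (∀ x : ℤ, x ∈ S ↔ T x ∈ S) → ∀ δ : ℝ, ∀ N : ℕ, 16 ≤ N →
    ∑ n ∈ range N, jump (fun n => ind s S n - δ) n ≤ C * N / (Real.log N) ^ (1 / 30 : ℝ) := by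
  classical
  obtain ⟨A, hA, h⟩ := Pool.Agent.V11201.SH.apart_rate
  refine ⟨1 + 4 * A, by positivity, fun s hs S hS δ N hN => ?_⟩
  have h1 := h 1 (by norm_num) s hs N hN 1 (1 / 2) (by norm_num)
  obtain ⟨hL2, hll⟩ := Pool.Agent.V11201.SH.logs hN
  set L : ℝ := Real.log N with hL
  have hL0 : 0 < L := by linarith
  have hN0 : (0 : ℝ) < N := by positivity
  -- the set of late pairs
  set E : Finset ℕ := (range (N + 1)).filter fun n => 1 ≤ n ∧
    ¬ Pool.Agent.V11201.SH.Merge 1 N (s * n) (s * n + 1) with hE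
  have hEle : (E.card : ℝ) ≤ 4 * A * (N / L ^ (1 / 30 : ℝ)) := by
    have e1 : E.card ≤ ({n : ℕ | 1 ≤ n ∧ n ≤ N ∧
        (1 / 2 : ℝ) * ((1 : ℕ) : ℝ) < Pool.Agent.V11201.SH.apart 1 N (s * n) 1}).ncard := by
      rw [← Set.ncard_coe_finset]
      apply Set.ncard_le_ncard
      · intro n hn
        rw [mem_coe, hE, mem_filter, mem_range] at hn
        refine ⟨hn.2.1, by omega, ?_⟩
        have e2 : Pool.Agent.V11201.SH.apart 1 N (s * n) 1 = 1 := by
          unfold Pool.Agent.V11201.SH.apart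
          have : {j : ℕ | 1 ≤ j ∧ j ≤ 1 ∧ ¬ Pool.Agent.V11201.SH.Merge 1 N (s * n) (s * n + 1 * j)} =
              {1} := by
            ext j
            simp only [Set.mem_ofPred_eq, Set.mem_singleton_iff]
            constructor
            · rintro ⟨a1, a2, _⟩; omega
            · rintro rfl
              refine ⟨le_refl _, le_refl _, ?_⟩
              simpa using hn.2.2
          rw [this, Set.ncard_singleton]
        rw [e2]; norm_num
      · exact Set.Finite.subset (Set.finite_Icc 1 N) fun n hn => ⟨hn.1, hn.2.1⟩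
    have e2 : (E.card : ℝ) ≤ A / (1 / 2) * √ ((1 + Real.log (1 + (1 : ℕ))) *
        Pool.Agent.V11201.SH.lam N) * N := le_trans (by exact_mod_cast e1) h1
    have e3 : √ ((1 + Real.log (1 + (1 : ℕ))) * Pool.Agent.V11201.SH.lam N) ≤
        2 * (L ^ (1 / 30 : ℝ))⁻¹ := by
      rw [Real.sqrt_le_left (by positivity)]
      unfold Pool.Agent.V11201.SH.lam
      have f1 : Real.log (1 + ((1 : ℕ) : ℝ)) ≤ 1 := by
        have := Real.log_le_sub_one_of_pos (by norm_num : (0 : ℝ) < 1 + ((1 : ℕ) : ℝ))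
        norm_num at this ⊢
        linarith
      have f0 : 0 ≤ Real.log (1 + ((1 : ℕ) : ℝ)) := Real.log_nonneg (by norm_num)
      have f2 : Real.log L ≤ 2 * L ^ (1 / 2 : ℝ) := by
        have := Real.log_le_rpow_div hL0.le (by norm_num : (0 : ℝ) < 1 / 2)
        linarith
      have f3 : 0 ≤ Real.log L / L := by
        have : 0 ≤ Real.log L := by linarith
        positivity
      calc (1 + Real.log (1 + ((1 : ℕ) : ℝ))) * (Real.log L / L) ≤ 2 * (Real.log L / L) := by
            gcongr; linarith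
        _ ≤ 2 * (2 * L ^ (1 / 2 : ℝ) / L) := by gcongr
        _ = 4 * L ^ (-(1 / 2) : ℝ) := by
            have : L ^ (-(1 / 2) : ℝ) = L ^ (1 / 2 : ℝ) / L := by
              rw [show (-(1 / 2) : ℝ) = 1 / 2 - 1 by norm_num, Real.rpow_sub hL0, Real.rpow_one]
            rw [this]; ring
        _ ≤ 4 * L ^ (-(1 / 15) : ℝ) := by
            have : L ^ (-(1 / 2) : ℝ) ≤ L ^ (-(1 / 15) : ℝ) :=
              Real.rpow_le_rpow_of_exponent_le (by linarith) (by norm_num)
            linarith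
        _ = (2 * (L ^ (1 / 30 : ℝ))⁻¹) ^ 2 := by
            rw [← Real.rpow_neg hL0.le, mul_pow, ← Real.rpow_natCast (L ^ (-(1 / 30) : ℝ)) 2,
              ← Real.rpow_mul hL0.le]
            norm_num
    calc (E.card : ℝ) ≤ A / (1 / 2) * √ ((1 + Real.log (1 + (1 : ℕ))) *
          Pool.Agent.V11201.SH.lam N) * N := e2
      _ ≤ A / (1 / 2) * (2 * (L ^ (1 / 30 : ℝ))⁻¹) * N := by gcongr
      _ = 4 * A * (N / L ^ (1 / 30 : ℝ)) := by ring
  -- jumps are in the set, after a shift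
  have hj : ∑ n ∈ range N, jump (fun n => ind s S n - δ) n ≤ 1 + E.card := by
    have hjle : ∀ n, jump (fun n => ind s S n - δ) n ≤
        if (s * (n : ℤ) ∈ S ↔ s * ((n + 1 : ℕ) : ℤ) ∈ S) then 0 else 1 := by
      intro n
      unfold jump ind
      by_cases hc : (s * (n : ℤ) ∈ S ↔ s * ((n + 1 : ℕ) : ℤ) ∈ S)
      · simp only [hc, if_true, le_refl]
      · rw [if_neg hc]
        split_ifs <;> norm_num
    refine (Finset.sum_le_sum fun n _ => hjle n).trans ?_
    have e1 : ∀ n : ℕ, (if (s * (n : ℤ) ∈ S ↔ s * ((n + 1 : ℕ) : ℤ) ∈ S) then (0 : ℝ) else 1) =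
        if ¬ (s * (n : ℤ) ∈ S ↔ s * ((n + 1 : ℕ) : ℤ) ∈ S) then 1 else 0 := by
      intro n; exact (ite_not _ _ _).symm
    rw [Finset.sum_congr rfl fun n _ => e1 n, Finset.sum_boole]
    have e2 : ((range N).filter fun n : ℕ =>
        ¬ (s * (n : ℤ) ∈ S ↔ s * ((n + 1 : ℕ) : ℤ) ∈ S)).card ≤ 1 + E.card := by
      rcases hs with rfl | rfl
      · have hsub : ((range N).filter fun n : ℕ =>
            ¬ ((1 : ℤ) * (n : ℤ) ∈ S ↔ (1 : ℤ) * ((n + 1 : ℕ) : ℤ) ∈ S)) ⊆ {0} ∪ E := by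
          intro n hn
          rw [mem_filter, mem_range] at hn
          rw [mem_union, mem_singleton]
          by_cases h0 : n = 0
          · exact Or.inl h0
          · right
            rw [hE, mem_filter, mem_range]
            refine ⟨by omega, by omega, fun hm => hn.2 ?_⟩
            have := same_of_merge hS hm
            rw [this]
            have e : (1 : ℤ) * (n : ℤ) + 1 = 1 * ((n + 1 : ℕ) : ℤ) := by push_cast; ring
            rw [e]
        calc _ ≤ ({0} ∪ E : Finset ℕ).card := card_le_card hsub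
          _ ≤ ({0} : Finset ℕ).card + E.card := card_union_le _ _
          _ = 1 + E.card := by rw [card_singleton]
      · have hsub : ((range N).filter fun n : ℕ =>
            ¬ ((-1 : ℤ) * (n : ℤ) ∈ S ↔ (-1 : ℤ) * ((n + 1 : ℕ) : ℤ) ∈ S)).image (fun n => n + 1) ⊆
            E := by
          intro m hm
          obtain ⟨n, hn, rfl⟩ := mem_image.1 hm
          rw [mem_filter, mem_range] at hn
          rw [hE, mem_filter, mem_range]
          refine ⟨by omega, by omega, fun hm => hn.2 ?_⟩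
          have := same_of_merge hS hm
          rw [this]
          have e : (-1 : ℤ) * ((n + 1 : ℕ) : ℤ) + 1 = -1 * (n : ℤ) := by push_cast; ring
          rw [e]
        have := card_le_card hsub
        rw [card_image_of_injective _ (fun a b h => by simpa using h)] at this
        omega
    exact_mod_cast e2
  have hone : (1 : ℝ) ≤ N / L ^ (1 / 30 : ℝ) := by
    rw [le_div_iff₀ (by positivity), one_mul]
    calc L ^ (1 / 30 : ℝ) ≤ L ^ (1 : ℝ) :=
          Real.rpow_le_rpow_of_exponent_le (by linarith) (by norm_num)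
      _ = L := Real.rpow_one L
      _ ≤ N := by
          have := Real.log_le_sub_one_of_pos hN0
          linarith
  calc _ ≤ 1 + (E.card : ℝ) := hj
    _ ≤ N / L ^ (1 / 30 : ℝ) + 4 * A * (N / L ^ (1 / 30 : ℝ)) := add_le_add hone hEle
    _ = _ := by ring

theorem ci_sum {s : ℤ} (hs : s = 1 ∨ s = -1) (S : Set ℤ) (N : ℕ) :
    (({n : ℤ | 0 < s * n ∧ s * n ≤ N ∧ n ∈ S}.ncard : ℕ) : ℝ) = ∑ n ∈ range N, ind s S (n + 1) := by
  classical
  have hss : s * s = 1 := by rcases hs with rfl | rfl <;> norm_num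
  unfold ind
  rw [Finset.sum_boole]
  congr 1
  rw [← Set.ncard_coe_finset]
  have himg : {n : ℤ | 0 < s * n ∧ s * n ≤ N ∧ n ∈ S} =
      (fun n : ℕ => s * ((n + 1 : ℕ) : ℤ)) ''
        (((range N).filter fun n : ℕ => s * ((n + 1 : ℕ) : ℤ) ∈ S : Finset ℕ) : Set ℕ) := by
    ext n
    simp only [Set.mem_ofPred_eq, Set.mem_image, coe_filter, mem_range]
    constructor
    · rintro ⟨h1, h2, h3⟩
      have e : s * (((s * n).toNat - 1 + 1 : ℕ) : ℤ) = n := by
        have h4 : (((s * n).toNat - 1 + 1 : ℕ) : ℤ) = s * n := by omega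
        rw [h4, ← mul_assoc, hss, one_mul]
      refine ⟨(s * n).toNat - 1, ⟨by omega, ?_⟩, e⟩
      rw [e]; exact h3
    · rintro ⟨m, ⟨h1, h2⟩, rfl⟩
      have e : s * (s * ((m + 1 : ℕ) : ℤ)) = ((m + 1 : ℕ) : ℤ) := by
        rw [← mul_assoc, hss, one_mul]
      rw [e]
      exact ⟨by positivity, by omega, h2⟩
  rw [himg, Set.ncard_image_of_injective]
  intro m m' h
  have hs0 : s ≠ 0 := by rcases hs with rfl | rfl <;> norm_num
  have := mul_left_cancel₀ hs0 h
  omega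

/-- densities with an error term -/
theorem means : ∃ C : ℝ, 0 < C ∧ ∀ s : ℤ, (s = 1 ∨ s = -1) → ∀ S : Set ℤ,
    (∀ x : ℤ, x ∈ S ↔ T x ∈ S) → ∃ δ : ℝ, 0 ≤ δ ∧ δ ≤ 1 ∧ (δ = 0 ↔ ∀ n : ℤ, 0 < s * n → n ∉ S) ∧
      (δ = 1 ↔ ∀ n : ℤ, 0 < s * n → n ∈ S) ∧
      (∀ N : ℕ, 2 ≤ N → |∑ n ∈ range N, ind s S (n + 1) - δ * N| ≤
        C * N / (Real.log N) ^ (1 / 30 : ℝ)) ∧
      ∀ N : ℕ, 2 ≤ N →
        |∑ n ∈ range N, (ind s S n - δ)| ≤ (C + 2) * N / (Real.log N) ^ (1 / 30 : ℝ) := by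
  obtain ⟨C, hC, h⟩ := Pool.Agent.TH237.RT.int_rate
  refine ⟨C, hC, fun s hs S hS => ?_⟩
  obtain ⟨δ, d0, d1, z0, z1, hr⟩ := h s hs S fun x _ => hS x
  have hci : ∀ N : ℕ, Pool.Agent.TH237.RT.ci s S N = ∑ n ∈ range N, ind s S (n + 1) := by
    intro N
    rw [← ci_sum hs]
    unfold Pool.Agent.TH237.RT.ci
    congr 2
    ext n
    simp only [Set.mem_ofPred_eq]
    constructor
    · rintro ⟨a1, a2, a3⟩; exact ⟨a1, by exact_mod_cast a2, a3⟩
    · rintro ⟨a1, a2, a3⟩; exact ⟨a1, by exact_mod_cast a2, a3⟩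
  have hr' : ∀ N : ℕ, 2 ≤ N → |∑ n ∈ range N, ind s S (n + 1) - δ * N| ≤
      C * N / (Real.log N) ^ (1 / 30 : ℝ) := by
    intro N hN
    rw [← hci]
    exact hr N (by exact_mod_cast hN)
  refine ⟨δ, d0, d1, z0, z1, hr', fun N hN => ?_⟩
  have h1 := hr' N hN
  have e1 : ∑ n ∈ range N, ind s S n + ind s S N = ∑ n ∈ range N, ind s S (n + 1) + ind s S 0 := by
    rw [← Finset.sum_range_succ, ← Finset.sum_range_succ']
  have e2 : ∑ n ∈ range N, (ind s S n - δ) =
      (∑ n ∈ range N, ind s S (n + 1) - δ * N) + (ind s S 0 - ind s S N) := by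
    rw [Finset.sum_sub_distrib, Finset.sum_const, card_range, nsmul_eq_mul]
    linarith
  have h2 : |ind s S 0 - ind s S N| ≤ 1 := by
    rw [abs_le]
    constructor <;> linarith [ind_nonneg s S 0, ind_nonneg s S N, ind_le_one s S 0, ind_le_one s S N]
  have hN2 : (2 : ℝ) ≤ N := by exact_mod_cast hN
  have hN0 : (0 : ℝ) < N := by linarith
  have hL0 : 0 < Real.log N := Real.log_pos (by linarith)
  have hLN : Real.log N ≤ N := by
    have := Real.log_le_sub_one_of_pos hN0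
    linarith
  have hone : (1 : ℝ) ≤ 2 * (N / Real.log N ^ (1 / 30 : ℝ)) := by
    rw [← mul_div_assoc, le_div_iff₀ (by positivity), one_mul]
    calc Real.log N ^ (1 / 30 : ℝ) ≤ (N : ℝ) ^ (1 / 30 : ℝ) :=
          Real.rpow_le_rpow hL0.le hLN (by norm_num)
      _ ≤ (N : ℝ) ^ (1 : ℝ) := Real.rpow_le_rpow_of_exponent_le (by linarith) (by norm_num)
      _ = N := Real.rpow_one _
      _ ≤ 2 * N := by linarith
  rw [e2]
  calc _ ≤ |∑ n ∈ range N, ind s S (n + 1) - δ * N| + |ind s S 0 - ind s S N| := abs_add_le _ _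
    _ ≤ C * N / Real.log N ^ (1 / 30 : ℝ) + 2 * (N / Real.log N ^ (1 / 30 : ℝ)) := by linarith
    _ = _ := by ring

end Pool.Agent.Helper62.AP
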