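import Pool.Agent.Helper62.AP.Core

set_option autoImplicit false

namespace Pool.Agent.Helper62.AP

open Finset Filter

/-- one machine whose one-step relation is transitive: a power of the logarithm is saved -/
theorem core_trans {K : ℕ} (b : ℕ) (hb : 2 ≤ b) (δ : Fin K → ℕ → Fin K)
    (htr : ∀ q, ∀ r < b, ∀ r' < b, ∃ r'' < b, δ (δ q r) r' = δ q r'')
    (𝓤 : Set (ℕ → ℝ)) (h1 : ∀ u ∈ 𝓤, ∀ n, |u n| ≤ 1) (d C : ℝ) (hd : 0 < d) (hd1 : d ≤ 1)
    (hC : 0 < C) (N₁ : ℕ)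
    (hD : ∀ u ∈ 𝓤, ∀ N : ℕ, N₁ ≤ N → |∑ n ∈ range N, u n| ≤ C * N / (Real.log N) ^ d)
    (hJ : ∀ u ∈ 𝓤, ∀ N : ℕ, N₁ ≤ N → ∑ n ∈ range N, jump u n ≤ C * N / (Real.log N) ^ d) :
    ∃ c : ℝ, 0 < c ∧ ∀ᶠ N : ℕ in atTop, ∀ u ∈ 𝓤, ∀ a : ℕ → Fin K,
      (∀ n, 0 < n → ∀ r < b, a (b * n + r) = δ (a n) r) → ∀ g : Fin K → ℝ, (∀ q, |g q| ≤ 1) →
      |∑ n ∈ range N, u n * g (a n)| ≤ N / (Real.log N) ^ c := by
  have hbr : (2 : ℝ) ≤ b := by exact_mod_cast hb
  have hb0 : (0 : ℝ) < b := by linarith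
  set τ : ℝ := ((b : ℝ) - 1) / b with hτ
  have hτ0 : 0 < τ := div_pos (by linarith) hb0
  have hτ1 : τ < 1 := by rw [hτ, div_lt_one hb0]; linarith
  have hτb : 1 / (b : ℝ) ≤ τ := by
    rw [hτ]; gcongr; linarith
  have hlb : 0 < Real.log b := Real.log_pos (by linarith)
  -- the exponent
  set c : ℝ := -Real.log τ / Real.log b with hc
  have hc0 : 0 < c := div_pos (neg_pos.2 (Real.log_neg hτ0 hτ1)) hlb
  have hc1 : c ≤ 1 := by
    rw [hc, div_le_one hlb]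
    have : Real.log (1 / b) ≤ Real.log τ := Real.log_le_log (by positivity) hτb
    rw [one_div, Real.log_inv] at this
    linarith
  have hτc : τ = (b : ℝ) ^ (-c) := by
    rw [Real.rpow_def_of_pos hb0, hc]
    have : Real.log b * -(-Real.log τ / Real.log b) = Real.log τ := by field_simp
    rw [this, Real.exp_log hτ0]
  -- limits
  have hlog : Tendsto (fun N : ℕ => Real.log N) atTop atTop :=
    Real.tendsto_log_atTop.comp tendsto_natCast_atTop_atTop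
  have hy : Tendsto (fun N : ℕ => (Real.log N) ^ (d / 4)) atTop atTop :=
    (tendsto_rpow_atTop (by positivity)).comp hlog
  set C₀ : ℝ := 3 * b + b + 4 * C * b + 2 * C + 2 * b with hC₀
  have e1 : ∀ᶠ N : ℕ in atTop, C₀ ≤ ((Real.log N) ^ (d / 4)) ^ (c / 2) :=
    ((tendsto_rpow_atTop (by positivity : 0 < c / 2)).comp hy).eventually_ge_atTop C₀
  have e2 : ∀ᶠ N : ℕ in atTop, (b : ℝ) * Real.log N ≤ (N : ℝ) ^ (1 / 2 : ℝ) := by
    have := (isLittleO_log_rpow_atTop (by norm_num : (0 : ℝ) < 1 / 2)).bound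
      (by positivity : (0 : ℝ) < 1 / b)
    have h2 := tendsto_natCast_atTop_atTop (R := ℝ) |>.eventually this
    filter_upwards [h2, hlog.eventually_ge_atTop 1] with N hN hN1
    rw [Real.norm_of_nonneg (by linarith), Real.norm_of_nonneg (by positivity)] at hN
    calc (b : ℝ) * Real.log N ≤ b * (1 / b * (N : ℝ) ^ (1 / 2 : ℝ)) :=
          mul_le_mul_of_nonneg_left hN hb0.le
      _ = _ := by field_simp
  have e3 : ∀ᶠ N : ℕ in atTop, (N₁ : ℝ) + 1 ≤ (N : ℝ) ^ (1 / 2 : ℝ) :=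
    ((tendsto_rpow_atTop (by norm_num : (0 : ℝ) < 1 / 2)).comp
      tendsto_natCast_atTop_atTop).eventually_ge_atTop _
  refine ⟨d * c / 8, by positivity, ?_⟩
  filter_upwards [e1, e2, e3, hlog.eventually_ge_atTop 1, eventually_ge_atTop N₁,
    eventually_ge_atTop 2] with N E1 E2 E3 E4 E5 E6
  intro u hu a ha g hg
  set L : ℝ := Real.log N with hL
  have hL0 : 0 < L := by linarith
  have hNr : (2 : ℝ) ≤ N := by exact_mod_cast E6
  have hN0 : (0 : ℝ) < N := by linarith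
  set y : ℝ := L ^ (d / 4) with hydef
  have hy1 : 1 ≤ y := Real.one_le_rpow E4 (by positivity)
  have hy0 : 0 < y := by linarith
  have hy4 : y ^ 4 = L ^ d := by
    rw [hydef, ← Real.rpow_natCast, ← Real.rpow_mul hL0.le]
    congr 1
    push_cast
    ring
  have hyL : y ^ 4 ≤ L := by
    rw [hy4]
    calc L ^ d ≤ L ^ (1 : ℝ) := Real.rpow_le_rpow_of_exponent_le E4 hd1
      _ = L := Real.rpow_one L
  -- the number of digits
  set p : ℕ := Nat.log b ⌊y⌋₊ with hp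
  have hfl : ⌊y⌋₊ ≠ 0 := by
    have : 1 ≤ ⌊y⌋₊ := (Nat.one_le_floor_iff y).2 hy1
    omega
  have hbp : (b : ℝ) ^ p ≤ y := by
    have h2 : b ^ p ≤ ⌊y⌋₊ := Nat.pow_log_le_self b hfl
    calc (b : ℝ) ^ p = ((b ^ p : ℕ) : ℝ) := by push_cast; rfl
      _ ≤ (⌊y⌋₊ : ℝ) := by exact_mod_cast h2
      _ ≤ y := Nat.floor_le hy0.le
  have hbp' : y ≤ (b : ℝ) ^ (p + 1) := by
    have h2 : ⌊y⌋₊ < b ^ (p + 1) := Nat.lt_pow_succ_log_self (by omega) _
    have h3 : (⌊y⌋₊ : ℝ) + 1 ≤ (b : ℝ) ^ (p + 1) := by exact_mod_cast h2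
    linarith [Nat.lt_floor_add_one y]
  have hbp0 : (0 : ℝ) < (b : ℝ) ^ p := by positivity
  have hbp1 : (1 : ℝ) ≤ (b : ℝ) ^ p := one_le_pow₀ (by linarith)
  -- the small quantity
  have hsmall : τ ^ p ≤ b * y ^ (-c) := by
    have h2 : τ ^ p = ((b : ℝ) ^ p) ^ (-c) := by
      rw [hτc, ← Real.rpow_natCast, ← Real.rpow_mul hb0.le, ← Real.rpow_natCast,
        ← Real.rpow_mul hb0.le]
      congr 1; ring
    have h3 : y / b ≤ (b : ℝ) ^ p := by
      rw [div_le_iff₀ hb0, ← pow_succ]; exact hbp'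
    rw [h2]
    calc ((b : ℝ) ^ p) ^ (-c) ≤ (y / b) ^ (-c) :=
          Real.rpow_le_rpow_of_nonpos (by positivity) h3 (by linarith)
      _ = y ^ (-c) * (b : ℝ) ^ c := by
          rw [Real.div_rpow hy0.le hb0.le, Real.rpow_neg hb0.le, div_inv_eq_mul]
      _ ≤ y ^ (-c) * (b : ℝ) ^ (1 : ℝ) := by
          have : (b : ℝ) ^ c ≤ (b : ℝ) ^ (1 : ℝ) :=
            Real.rpow_le_rpow_of_exponent_le (by linarith) hc1
          have : 0 ≤ y ^ (-c) := by positivity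
          gcongr
      _ = b * y ^ (-c) := by rw [Real.rpow_one]; ring
  have hinv : ((b : ℝ) ^ p)⁻¹ ≤ b * y ^ (-c) := by
    have h3 : y / b ≤ (b : ℝ) ^ p := by
      rw [div_le_iff₀ hb0, ← pow_succ]; exact hbp'
    calc ((b : ℝ) ^ p)⁻¹ ≤ (y / b)⁻¹ := by gcongr
      _ = b * y ^ (-(1 : ℝ)) := by rw [inv_div, Real.rpow_neg_one]; rfl
      _ ≤ b * y ^ (-c) := by
          have : y ^ (-(1 : ℝ)) ≤ y ^ (-c) := Real.rpow_le_rpow_of_exponent_le hy1 (by linarith)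
          gcongr
  -- the scales
  set w : ℕ := Nat.log b N with hw
  have hbw : b ^ w ≤ N := Nat.pow_log_le_self b (by omega)
  have hbw' : N < b ^ (w + 1) := Nat.lt_pow_succ_log_self (by omega) _
  have hNs : (N : ℝ) ^ (1 / 2 : ℝ) * (N : ℝ) ^ (1 / 2 : ℝ) = N := by
    rw [← Real.rpow_add hN0]; norm_num
  have hNs1 : 1 ≤ (N : ℝ) ^ (1 / 2 : ℝ) := Real.one_le_rpow (by linarith) (by norm_num)
  have h3p : 3 * p + 1 ≤ w := by
    rw [hw]
    apply Nat.le_log_of_pow_le (by omega)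
    have : ((b ^ (3 * p + 1) : ℕ) : ℝ) ≤ N := by
      push_cast
      calc (b : ℝ) ^ (3 * p + 1) = b * ((b : ℝ) ^ p) ^ 3 := by rw [← pow_mul]; ring
        _ ≤ b * y ^ 3 := by gcongr
        _ ≤ b * y ^ 4 := by
            have : y ^ 3 ≤ y ^ 4 := pow_le_pow_right₀ hy1 (by norm_num)
            gcongr
        _ ≤ b * L := by gcongr
        _ ≤ (N : ℝ) ^ (1 / 2 : ℝ) := E2
        _ ≤ (N : ℝ) ^ (1 / 2 : ℝ) * (N : ℝ) ^ (1 / 2 : ℝ) := by nlinarith
        _ = N := hNs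
    exact_mod_cast this
  obtain ⟨j, hj⟩ : ∃ j, w = 2 * p + (p + (j + 1)) := ⟨w - 3 * p - 1, by omega⟩
  set V : ℕ := b ^ p * b ^ (j + 1) with hV
  have hV' : V = b ^ (p + (j + 1)) := by rw [hV, ← pow_add]
  have hVpos : 0 < V := by positivity
  set M : ℕ := N / V with hM
  have hVN : b ^ (2 * p) * V ≤ N := by
    rw [hV', ← pow_add, ← hj]; exact hbw
  have hM1 : b ^ (2 * p) ≤ M := by
    rw [hM, Nat.le_div_iff_mul_le hVpos]; exact hVN
  have hM2 : M < b ^ (2 * p + 1) := by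
    rw [hM, Nat.div_lt_iff_lt_mul hVpos, hV', ← pow_add]
    have : 2 * p + 1 + (p + (j + 1)) = w + 1 := by omega
    rw [this]; exact hbw'
  have hMpos : 0 < M := lt_of_lt_of_le (by positivity) hM1
  have hMr : (0 : ℝ) < M := by exact_mod_cast hMpos
  have hMy : (M : ℝ) ≤ b * y ^ 2 := by
    calc (M : ℝ) ≤ ((b ^ (2 * p + 1) : ℕ) : ℝ) := by exact_mod_cast hM2.le
      _ = b * ((b : ℝ) ^ p) ^ 2 := by push_cast; rw [← pow_mul]; ring
      _ ≤ b * y ^ 2 := by gcongr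
  have hVM : (V : ℝ) * M ≤ N := by
    have : V * M ≤ N := by rw [hM]; exact Nat.mul_div_le N V
    exact_mod_cast this
  have hVle : (V : ℝ) ≤ N * (((b : ℝ) ^ p)⁻¹ * ((b : ℝ) ^ p)⁻¹) := by
    have : ((b ^ (2 * p) * V : ℕ) : ℝ) ≤ N := by exact_mod_cast hVN
    push_cast at this
    rw [← mul_inv, ← div_eq_mul_inv, le_div_iff₀ (by positivity)]
    calc (V : ℝ) * ((b : ℝ) ^ p * (b : ℝ) ^ p) = (b : ℝ) ^ (2 * p) * V := by
          rw [← pow_add]; ring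
      _ ≤ N := by simpa [hV] using this
  have hVbig : (N : ℝ) ^ (1 / 2 : ℝ) ≤ V := by
    have h4 : (N : ℝ) ≤ V * (b * y ^ 2) := by
      have h5 : N < b ^ (2 * p + 1) * V := by
        rw [hV', ← pow_add]
        have : 2 * p + 1 + (p + (j + 1)) = w + 1 := by omega
        rw [this]; exact hbw'
      have h6 : (N : ℝ) ≤ ((b ^ (2 * p + 1) * V : ℕ) : ℝ) := by exact_mod_cast h5.le
      have h7 : ((b ^ (2 * p + 1) * V : ℕ) : ℝ) = V * (b * ((b : ℝ) ^ p) ^ 2) := by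
        push_cast; rw [← pow_mul]; ring
      rw [h7] at h6
      refine h6.trans ?_
      gcongr
    have h8 : b * y ^ 2 ≤ (N : ℝ) ^ (1 / 2 : ℝ) := by
      calc b * y ^ 2 ≤ b * y ^ 4 := by
            have : y ^ 2 ≤ y ^ 4 := pow_le_pow_right₀ hy1 (by norm_num)
            gcongr
        _ ≤ b * L := by gcongr
        _ ≤ _ := E2
    have h9 : (N : ℝ) ^ (1 / 2 : ℝ) * (N : ℝ) ^ (1 / 2 : ℝ) ≤ V * (N : ℝ) ^ (1 / 2 : ℝ) := by
      rw [hNs]
      exact h4.trans (by gcongr)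
    exact le_of_mul_le_mul_right h9 (by positivity)
  have hlogV : L / 2 ≤ Real.log V := by
    have : Real.log ((N : ℝ) ^ (1 / 2 : ℝ)) ≤ Real.log V := Real.log_le_log (by positivity) hVbig
    rw [Real.log_rpow hN0] at this
    linarith
  have hVN1 : N₁ ≤ V := by
    have : (N₁ : ℝ) ≤ V := by linarith
    exact_mod_cast this
  set η : ℝ := C * 2 / L ^ d with hη
  have hLd : 0 < L ^ d := by positivity
  have hη0 : 0 ≤ η := by positivity
  have hDm : ∀ m, 0 < m → m ≤ M → |∑ n ∈ range (b ^ p * b ^ (j + 1) * m), u n| ≤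
      η * (b ^ p * b ^ (j + 1) * m : ℕ) := by
    intro m hm _
    rw [← hV]
    have hVm : V ≤ V * m := Nat.le_mul_of_pos_right V hm
    have h4 := hD u hu (V * m) (hVN1.trans hVm)
    refine h4.trans ?_
    have h5 : L / 2 ≤ Real.log ((V * m : ℕ) : ℝ) :=
      hlogV.trans (Real.log_le_log (by exact_mod_cast hVpos) (by exact_mod_cast hVm))
    have h6 : L ^ d / 2 ≤ Real.log ((V * m : ℕ) : ℝ) ^ d := by
      calc L ^ d / 2 ≤ (L / 2) ^ d := by
            rw [Real.div_rpow hL0.le (by norm_num)]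
            have : (2 : ℝ) ^ d ≤ 2 ^ (1 : ℝ) := Real.rpow_le_rpow_of_exponent_le (by norm_num) hd1
            rw [Real.rpow_one] at this
            gcongr
        _ ≤ _ := Real.rpow_le_rpow (by positivity) h5 hd.le
    rw [hη]
    calc C * ((V * m : ℕ) : ℝ) / Real.log ((V * m : ℕ) : ℝ) ^ d
        ≤ C * ((V * m : ℕ) : ℝ) / (L ^ d / 2) := by gcongr
      _ = _ := by field_simp
  have hJN : ∑ n ∈ range N, jump u n ≤ (C / L ^ d) * N := by
    have := hJ u hu N E5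
    calc _ ≤ _ := this
      _ = _ := by ring
  have key := assemble hb htr ha (h1 u hu) hg p j p N M η (C / L ^ d) hη0 hM hMpos hDm hJN
  rw [← hV, ← hτ] at key
  -- estimates
  have hyc : 0 < y ^ (-c) := by positivity
  have hY2 : y ^ 2 / y ^ 4 ≤ y ^ (-c) := by
    have h4 : y ^ 2 / y ^ 4 ≤ y⁻¹ := by
      rw [div_le_iff₀ (by positivity), inv_mul_eq_div, le_div_iff₀ hy0]
      nlinarith [pow_le_pow_right₀ hy1 (by norm_num : 3 ≤ 4)]
    refine h4.trans ?_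
    rw [← Real.rpow_neg_one]
    exact Real.rpow_le_rpow_of_exponent_le hy1 (by linarith)
  have hY1 : y / y ^ 4 ≤ y ^ (-c) := by
    refine le_trans ?_ hY2
    gcongr
    nlinarith
  have t1 : 2 * (V : ℝ) + V * ((b : ℝ) ^ p + M * τ ^ p) ≤ N * ((3 * b + b) * y ^ (-c)) := by
    have h4 : 2 * (V : ℝ) + V * (b : ℝ) ^ p ≤ N * (3 * (b * y ^ (-c))) := by
      calc 2 * (V : ℝ) + V * (b : ℝ) ^ p ≤ V * (3 * (b : ℝ) ^ p) := by
            nlinarith [hbp1, (by positivity : (0 : ℝ) < V)]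
        _ ≤ (N * (((b : ℝ) ^ p)⁻¹ * ((b : ℝ) ^ p)⁻¹)) * (3 * (b : ℝ) ^ p) := by gcongr
        _ = N * (3 * ((b : ℝ) ^ p)⁻¹) := by field_simp
        _ ≤ _ := by gcongr
    have h5 : (V : ℝ) * (M * τ ^ p) ≤ N * (b * y ^ (-c)) := by
      rw [← mul_assoc]
      gcongr
    nlinarith
  have t2 : 2 * η * M * N ≤ N * (4 * C * b * y ^ (-c)) := by
    have h4 : η * M ≤ 2 * C * b * y ^ (-c) := by
      calc η * M ≤ η * (b * y ^ 2) := by gcongr
        _ = 2 * C * b * (y ^ 2 / y ^ 4) := by rw [hη, hy4]; ring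
        _ ≤ _ := by gcongr
    nlinarith
  have t3 : 2 * (b : ℝ) ^ p * (C / L ^ d * N) ≤ N * (2 * C * y ^ (-c)) := by
    calc 2 * (b : ℝ) ^ p * (C / L ^ d * N) ≤ 2 * y * (C / L ^ d * N) := by gcongr
      _ = N * (2 * C * (y / y ^ 4)) := by rw [hy4]; ring
      _ ≤ _ := by gcongr
  have t4 : 2 * τ ^ p * N ≤ N * (2 * b * y ^ (-c)) := by
    calc 2 * τ ^ p * N ≤ 2 * (b * y ^ (-c)) * N := by gcongr
      _ = _ := by ring
  have htot : |∑ n ∈ range N, u n * g (a n)| ≤ N * (C₀ * y ^ (-c)) := by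
    rw [hC₀]
    have e : N * ((3 * b + b + 4 * C * b + 2 * C + 2 * b) * y ^ (-c)) =
        N * ((3 * b + b) * y ^ (-c)) + N * (4 * C * b * y ^ (-c)) + N * (2 * C * y ^ (-c)) +
          N * (2 * b * y ^ (-c)) := by ring
    rw [e]
    linarith
  refine htot.trans ?_
  have hfin : C₀ * y ^ (-c) ≤ (L ^ (d * c / 8))⁻¹ := by
    calc C₀ * y ^ (-c) ≤ y ^ (c / 2) * y ^ (-c) := by gcongr
      _ = y ^ (-(c / 2)) := by rw [← Real.rpow_add hy0]; congr 1; ring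
      _ = (L ^ (d * c / 8))⁻¹ := by
          rw [hydef, ← Real.rpow_mul hL0.le, ← Real.rpow_neg hL0.le]
          congr 1; ring
  calc N * (C₀ * y ^ (-c)) ≤ N * (L ^ (d * c / 8))⁻¹ := by gcongr
    _ = _ := (div_eq_mul_inv _ _).symm

end Pool.Agent.Helper62.AP
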